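import Pool.Agent.H911.KE.Can

/-!
# Hyperbolic manifolds with trivial canonical class and hyperbolic smooth hypersurfaces in `P^(2 m + 1)`

Q1: no Calabi–Yau threefold is hyperbolic. (A projective manifold is Kobayashi hyperbolic if and only if all
entire curves in it are constant.) We consider connected projective manifolds of dimension `m` with trivial
canonical class. For `m = 3`, Q1 is equivalent to the statement that none of them is hyperbolic: by the
decomposition theorem of Beauville and Bogomolov the universal cover of a hyperbolic one is a Calabi–Yau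
threefold, because the other cases contain entire curves, and it is again hyperbolic.

**(0) Models.** Let `2 m + 1 ≤ N`. There are bounds `D₁(e)` with the following property. Let `X` be a
connected projective manifold of dimension `m` in `P^n` (any `n`). There are linear forms `A_0, …, A_N` on
`P^n` which embed `X` as a submanifold `X'` of `P^N`, such that for some `e` and all `D ≥ D₁(e)` there is a
smooth hypersurface

`Y : ∑ t, Q_t(y) (y_0 + t y_1 + ⋯ + t^N y_N)^D = 0`, `t < N (2 N + 1)`, `Q_t` forms of degree `e`,

in `P^N` which contains `X'` and is hyperbolic outside of `X'` (`HyperbolicOutside`: the nonconstant entire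
curves in `Y` and the closed subvarieties of `Y` of positive dimension which are not of general type are in
`X'`, and the holomorphic maps from the punctured disc to `Y` which do not extend). For all smooth
hypersurfaces `Y` in `P^N` which are hyperbolic outside of `X'`, `Y` is hyperbolic if and only if `X` is
hyperbolic. The canonical class of `X'` is trivial if and only if the one of `X` is.

**(1) ⟺ (2) ⟺ (3)** for every choice of one exponent `δ(e) ≥ D₁(e)` for each `e`:
(1) no connected projective manifold of dimension `m` with trivial canonical class is hyperbolic;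
(2) no hyperbolic smooth hypersurface in `P^N` contains a connected submanifold of dimension `m` with trivial
canonical class;
(3) none of the smooth hypersurfaces `Y : ∑ t, Q_t(y) (y_0 + t y_1 + ⋯ + t^N y_N)^D = 0` in `P^N`, `D = δ(e)`
(for each degree `e` of the forms `Q_t` only one linear system of hypersurfaces), which are hyperbolic outside
of a submanifold of dimension `m` with trivial canonical class is hyperbolic.

So Q1 is a statement about smooth hypersurfaces of dimension six in `P^7`: those which are hyperbolic outside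
of a threefold with trivial canonical class are not hyperbolic.

Trivial canonical class (`TrivialCanonical`): there is a canonical form (given by its values on `m`
derivations of the function field `L`) which is regular and does not vanish at all points: its values on the
derivations which map the local ring `O_x` to itself are in `O_x`, and one of these values is not in the
maximal ideal.

Proof. See MP_1e3e9c_ag, `TwiceTheDimension`: a general linear projection embeds `X`, the hypersurface is
general among those in the ideal of `X'` of this form, and the local rings of `X` and `X'` are the same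
subrings of `L`.
-/

set_option autoImplicit false

namespace Pool.Agent.Results.MP_9d6ec4_ag.TwiceTheDimension

open MvPolynomial
open Pool.Agent.W602.GT (IsPluri)
open Pool.Agent.N254.SQ (IsForm SmoothForm powerForm)
open Pool.Agent.H911.EM (Emb at' HyperbolicOutside NoCurves)
open Pool.Agent.H911.KE (Mfd Point LocalRing MaxIdeal Generates)

/-- The canonical class of the smooth projective variety of dimension `m` with generic point `y` is
trivial: some canonical form is regular and does not vanish at all points. -/
def TrivialCanonical {n : ℕ} {L : Type} [Field L] [Algebra ℂ L] (m : ℕ) (y : Fin (n + 1) → L) :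
    Prop :=
  ∃ ω : (Fin m → Derivation ℂ L L) → L, IsPluri 1 ω ∧
    ∀ x, Point y x → Generates (LocalRing y x) (MaxIdeal y x) ω

/-- no connected projective manifold of dimension `m` with trivial canonical class is hyperbolic -/
def NoHyperbolic (m : ℕ) : Prop :=
  ∀ (n : ℕ) (S : Set (MvPolynomial (Fin (n + 1)) ℂ)) (L : Type) [Field L] [Algebra ℂ L]
    (y : Fin (n + 1) → L), Mfd S L m y → TrivialCanonical m y → ¬ NoCurves S

/-- the hypersurface `B = 0` does not contain a connected submanifold of dimension `m` with trivial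
canonical class -/
def NoSubmanifold {N : ℕ} (m : ℕ) (B : MvPolynomial (Fin (N + 1)) ℂ) : Prop :=
  ∀ (S : Set (MvPolynomial (Fin (N + 1)) ℂ)) (L : Type) [Field L] [Algebra ℂ L]
    (y : Fin (N + 1) → L), Mfd S L m y → aeval y B = 0 → ¬ TrivialCanonical m y

/-- the hypersurface `B = 0` is hyperbolic outside of a connected submanifold of dimension `m` with trivial
canonical class -/
def OutsideTrivial {N : ℕ} (m : ℕ) (B : MvPolynomial (Fin (N + 1)) ℂ) : Prop :=
  ∃ (S : Set (MvPolynomial (Fin (N + 1)) ℂ)) (L : Type) (_ : Field L) (_ : Algebra ℂ L)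
    (y : Fin (N + 1) → L), Mfd S L m y ∧ TrivialCanonical m y ∧ HyperbolicOutside B S

section proof

open Pool.Agent.H911.KE (Manifold point_map point_lift local_map local_smul mfd_image)
open Pool.Agent.H911.EM (ev_smul)

theorem max_smul {n : ℕ} {L : Type} [Field L] [Algebra ℂ L] (y : Fin (n + 1) → L)
    (z : Fin (n + 1) → ℂ) {c : ℂ} (hc : c ≠ 0) : MaxIdeal y (c • z) = MaxIdeal y z := by
  ext a
  refine exists_congr fun d => exists_congr fun P => exists_congr fun Q =>
    and_congr_right fun hP => and_congr_right fun hQ => ?_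
  have h5 : eval (c • z) P = c ^ d * eval z P := ev_smul (Ω := ℂ) hP c z
  have h6 : eval (c • z) Q = c ^ d * eval z Q := ev_smul (Ω := ℂ) hQ c z
  rw [h5, h6]
  have h7 : c ^ d ≠ 0 := pow_ne_zero _ hc
  refine and_congr ?_ (and_congr_left fun _ => ?_)
  · exact ⟨fun h => (mul_eq_zero.1 h).resolve_left h7, fun h => by rw [h, mul_zero]⟩
  · exact ⟨fun h h8 => h (by rw [h8, mul_zero]), fun h => mul_ne_zero h7 h⟩

theorem trivial_iff {n N : ℕ} {S : Set (MvPolynomial (Fin (n + 1)) ℂ)}
    {S' : Set (MvPolynomial (Fin (N + 1)) ℂ)} {A : Fin (N + 1) → MvPolynomial (Fin (n + 1)) ℂ}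
    {L : Type} [Field L] [Algebra ℂ L] {w : ℕ} {y : Fin (n + 1) → L} (hE : Emb S S' A)
    (hS : Mfd S L w y) (hS' : Manifold S' w) :
    TrivialCanonical w (at' A y) ↔ TrivialCanonical w y := by
  have hI := mfd_image hE hS hS'
  constructor
  · rintro ⟨ω, hω, h⟩
    refine ⟨ω, hω, fun x hx => ?_⟩
    have h3 := h _ (point_map hE hS hx)
    rwa [(local_map hE hS hx).1, (local_map hE hS hx).2] at h3
  · rintro ⟨ω, hω, h⟩
    refine ⟨ω, hω, fun z hz => ?_⟩
    obtain ⟨x, c, hc, hx, hxz⟩ := point_lift hE hS hz.1 fun F hF =>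
      hz.2 F (hS'.1 F hF) (hI.sub.mem ⟨F, hF⟩)
    have h3 := h x hx
    rwa [← (local_map hE hS hx).1, ← (local_map hE hS hx).2, hxz, local_smul _ _ hc,
      max_smul _ _ hc] at h3

end proof

/-- **No projective manifold of dimension `m` with trivial canonical class is hyperbolic if and only if no
smooth hypersurface of dimension `2 m` which is hyperbolic outside of such a manifold is hyperbolic.** -/
theorem result (m N : ℕ) (hN : 2 * m + 1 ≤ N) : ∃ D₁ : ℕ → ℕ,
    -- (0) models
    (∀ (n : ℕ) (S : Set (MvPolynomial (Fin (n + 1)) ℂ)) (L : Type) [Field L] [Algebra ℂ L]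
      (y : Fin (n + 1) → L), Mfd S L m y →
      ∃ (e : ℕ) (S' : Set (MvPolynomial (Fin (N + 1)) ℂ))
        (A : Fin (N + 1) → MvPolynomial (Fin (n + 1)) ℂ), 1 ≤ e ∧ Emb S S' A ∧
        Mfd S' L m (at' A y) ∧ (TrivialCanonical m (at' A y) ↔ TrivialCanonical m y) ∧
        (∀ D, D₁ e ≤ D → ∃ Q : Fin (N * (2 * N + 1)) → MvPolynomial (Fin (N + 1)) ℂ,
          (∀ t, (Q t).IsHomogeneous e) ∧ HyperbolicOutside (powerForm D Q) S') ∧
        ∀ B : MvPolynomial (Fin (N + 1)) ℂ, IsForm B → HyperbolicOutside B S' →
          (NoCurves {B} ↔ NoCurves S)) ∧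
    -- (1) - (3)
    ∀ δ : ℕ → ℕ, (∀ e, D₁ e ≤ δ e) →
      [ NoHyperbolic m,
        ∀ B : MvPolynomial (Fin (N + 1)) ℂ, IsForm B → SmoothForm B → NoCurves {B} →
          NoSubmanifold m B,
        ∀ (e : ℕ) (Q : Fin (N * (2 * N + 1)) → MvPolynomial (Fin (N + 1)) ℂ),
          (∀ t, (Q t).IsHomogeneous e) → OutsideTrivial m (powerForm (δ e) Q) →
          ¬ NoCurves {powerForm (δ e) Q}].TFAE := by
  obtain ⟨D₁, -, H⟩ := Pool.Agent.H911.KE.exists_both N (by omega)
  have K : ∀ (n : ℕ) (S : Set (MvPolynomial (Fin (n + 1)) ℂ)) (L : Type) [Field L] [Algebra ℂ L]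
      (y : Fin (n + 1) → L), Mfd S L m y →
      ∃ (e : ℕ) (S' : Set (MvPolynomial (Fin (N + 1)) ℂ))
        (A : Fin (N + 1) → MvPolynomial (Fin (n + 1)) ℂ), 1 ≤ e ∧ Emb S S' A ∧
        Mfd S' L m (at' A y) ∧ (TrivialCanonical m (at' A y) ↔ TrivialCanonical m y) ∧
        (∀ D, D₁ e ≤ D → ∃ Q : Fin (N * (2 * N + 1)) → MvPolynomial (Fin (N + 1)) ℂ,
          (∀ t, (Q t).IsHomogeneous e) ∧ HyperbolicOutside (powerForm D Q) S') ∧
        ∀ B : MvPolynomial (Fin (N + 1)) ℂ, IsForm B → HyperbolicOutside B S' →
          (NoCurves {B} ↔ NoCurves S) := by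
    intro n S L _ _ y hS
    obtain ⟨e, S', A, he, hS', hE, h⟩ := H n S m hN hS.manifold
    refine ⟨e, S', A, he, hE, Pool.Agent.H911.KE.mfd_image hE hS hS', trivial_iff hE hS hS',
      fun D hD => ?_, fun B hB hO => ?_⟩
    · obtain ⟨Q, hQ, hO, -⟩ := h D hD
      exact ⟨Q, hQ, hO⟩
    · exact Pool.Agent.H911.EM.noCurves_iff (hE.weak hS.forms hS'.1)
        (Pool.Agent.H911.EM.hy_of hB hO)
  refine ⟨D₁, K, fun δ hδ => ?_⟩
  tfae_have 1 → 2 := by
    intro h B hBf _ hB S L _ _ y hS hyB htr
    refine h N S L y hS htr fun f hf hf0 hfS => hB f hf hf0 fun z p hp => ?_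
    rw [Set.mem_singleton_iff] at hp
    rw [hp]
    exact (hS.dense (f z) (hf0 z) (hfS z)).2 B hBf hyB
  tfae_have 2 → 3 := by
    rintro h e Q hQ ⟨S, L, _, _, y, hS, htr, hO⟩ hB
    have hf := Pool.Agent.H911.EM.power_form (D := δ e) hQ
    exact h _ hf hO.1 hB S L y hS
      ((Pool.Agent.H911.EM.hy_of hf hO).van L y fun F hF => hS.sub.mem ⟨F, hF⟩) htr
  tfae_have 3 → 1 := by
    intro h n S L _ _ y hS htr hcur
    obtain ⟨e, S', A, -, hE, hS', hA, hQ, hc⟩ := K n S L y hS
    obtain ⟨Q, hQ, hO⟩ := hQ (δ e) (hδ e)
    have hf := Pool.Agent.H911.EM.power_form (D := δ e) hQ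
    exact h e Q hQ ⟨S', L, _, _, _, hS', hA.2 htr, hO⟩ ((hc _ hf hO).2 hcur)
  tfae_finish

end Pool.Agent.Results.MP_9d6ec4_ag.TwiceTheDimension
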